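import Pool.Agent.N912.EP.N912ELStm
import Pool.Agent.N912.RC.Stm

/-!
# Project LC (helper912): the two-factor method in all the ideal classes of an imaginary quadratic order,
that is for all the factorisations `d e = n^2 + t n + c`. Statements of the parts.
-/

set_option autoImplicit false

namespace Pool.Agent.N912.LC

open Finset Filter
open Pool.Agent.W78.GA (Qd nm prim dt ip lat ball pball edge dedge ang)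
open Pool.Agent.W78.EC (Tr av)
open Pool.Agent.W251.GX (Cm)
open Pool.Agent.N912.EP.W78EG
open Pool.Agent.N912.EP.N912EL (Bta)

variable {t c : ℤ} {f : ℕ}

/-- the ideal `{z : lat m r₀ z}` of norm `m` is invertible -/
structure Iv (t c : ℤ) (m : ℕ) (r₀ : ℤ) : Prop where
  pos : 1 ≤ m
  dvd : (m : ℤ) ∣ r₀ ^ 2 - t * r₀ + c
  inv : ∀ g : ℤ, g ∣ m → g ∣ 2 * r₀ - t → g ∣ (r₀ ^ 2 - t * r₀ + c) / m → IsUnit g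

/-- multiplication by `δ/m` -/
def dl (m : ℕ) (δ v : Qd t c) : Qd t c := ⟨(δ * v).re / m, (δ * v).im / m⟩

/-- `δ` is an element of norm `m p` with conjugate in `{z : lat m r₀ z}`; then `v ↦ δ v / m` is a bijection
from `{z : lat m r₀ z}` onto the ideal `{z : lat p r z}` of norm `p` -/
structure El (t c : ℤ) (m : ℕ) (r₀ : ℤ) (p : ℕ) (δ : Qd t c) (r : ℤ) : Prop where
  nrm : nm δ = m * p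
  con : lat m r₀ (star δ)
  lt : lat p r δ
  dvd : (p : ℤ) ∣ r ^ 2 - t * r + c
  cop : Nat.Coprime p m

open scoped Classical in
/-- the positively oriented bases of the ideal `{z : lat m r₀ z}` with vectors of norm at most `m X` -/
noncomputable def DL (t c : ℤ) (m : ℕ) (r₀ : ℤ) (X : ℝ) : Finset (Qd t c × Qd t c) :=
  (ball t c (m * X) ×ˢ ball t c (m * X)).filter
    (fun e => lat m r₀ e.1 ∧ lat m r₀ e.2 ∧ dt e.1 e.2 = m)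

/-- the pair is in the cone over a good edge after multiplication by `δ/m` -/
def InL (m : ℕ) (K : ℕ) (κ : ℝ) (Q : ℕ) (X : ℝ) (δ : Qd t c) (e : Qd t c × Qd t c) : Prop :=
  ∃ g ∈ good t c K κ Q X, dl m δ e.1 ∈ cone X g.1 g.2 ∧ dl m δ e.2 ∈ cone X g.1 g.2

open scoped Classical in
/-- BIJ in the ideal `{z : lat m r₀ z}` -/
def S_BIJL (t c : ℤ) (χ : PS f) (m : ℕ) (r₀ : ℤ) : Prop := ∀ (K : ℕ) (κ : ℝ) (Q : ℕ) (X : ℝ)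
  (p : ℕ) (δ : Qd t c) (r : ℤ) (u v : Qd t c → ℝ),
  1 ≤ K → 0 < κ → 1 ≤ Q → f * (K * Q : ℝ) ≤ X → p ∈ PQ χ Q → El t c m r₀ p δ r →
  ∑ e ∈ good t c K κ Q X, ∑ v' ∈ cone X e.1 e.2, ∑ w' ∈ cone X e.1 e.2,
    (if dt v' w' = p ∧ lat p r v' then u v' * v w' else 0) =
  ∑ e ∈ (DL t c m r₀ (X / p)).filter (InL m K κ Q X δ), u (dl m δ e.1) * v (dl m δ e.2)

open scoped Classical in
/-- PER in the ideal `{z : lat m r₀ z}`, with complex coefficients `u p` -/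
def S_PERL (t c : ℤ) (χ : PS f) (m : ℕ) (r₀ : ℤ) : Prop := ∀ (K : ℕ) (κ : ℝ) (Q : ℕ) (X : ℝ)
  (A : Type) (d₁ d₂ : A → ℂ) (lab : Qd t c → A)
  (δ : ℕ → Qd t c) (r : ℕ → ℤ) (u : ℕ → ℂ) (ζ₁ ζ₂ : ℕ → Tr A → ℕ × ℕ × ℕ × ℕ → ℝ), 1 ≤ K →
  0 < κ → 1 ≤ Q → f * (K * Q : ℝ) ≤ X →
  (∀ p ∈ PQ χ Q, El t c m r₀ p (δ p) (r p)) →
  (∀ e ∈ good t c K κ Q X, ∀ p ∈ PQ χ Q,
    (((ζ₁ p (TT lab X e) (res p e) : ℝ) : ℂ) + Complex.I * ((ζ₂ p (TT lab X e) (res p e) : ℝ) : ℂ) =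
      (((p : ℝ) + 1) / (2 * Q) : ℝ) * ∑ z ∈ cone X e.1 e.2, ∑ w ∈ cone X e.1 e.2,
        (if dt z w = p ∧ lat p (r p) z then d₁ (lab z) * d₂ (lab w) else 0)) ∧
    (((av p (ζ₁ p) (TT lab X e) : ℝ) : ℂ) + Complex.I * ((av p (ζ₂ p) (TT lab X e) : ℝ) : ℂ) =
      (1 / (2 * (Q : ℝ)) : ℝ) * ∑ z ∈ cone X e.1 e.2, ∑ w ∈ cone X e.1 e.2,
        (if dt z w = p then d₁ (lab z) * d₂ (lab w) else 0))) →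
  ‖∑ p ∈ PQ χ Q, ((Real.log p * ((p : ℝ) + 1) : ℝ) : ℂ) * (u p *
      ∑ e ∈ (DL t c m r₀ (X / p)).filter (InL m K κ Q X (δ p)),
        d₁ (lab (dl m (δ p) e.1)) * d₂ (lab (dl m (δ p) e.2)))‖ ≤
    2 * Q * ∑ e ∈ edge t c (X / (K * Q)),
      (|∑ p ∈ PQ χ Q, Real.log p *
          (((u p).re * ζ₁ p (TT lab X e) (res p e) - (u p).im * ζ₂ p (TT lab X e) (res p e)) -
            av p (fun T y => (u p).re * ζ₁ p T y - (u p).im * ζ₂ p T y) (TT lab X e))| +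
        |∑ p ∈ PQ χ Q, Real.log p *
          (((u p).re * ζ₂ p (TT lab X e) (res p e) + (u p).im * ζ₁ p (TT lab X e) (res p e)) -
            av p (fun T y => (u p).re * ζ₂ p T y + (u p).im * ζ₁ p T y) (TT lab X e))|) +
    ‖∑ e ∈ good t c K κ Q X, ∑ v ∈ cone X e.1 e.2, ∑ w ∈ cone X e.1 e.2,
      d₁ (lab v) * d₂ (lab w) * (u (dt v w).toNat * (th χ Q (dt v w) : ℂ))‖

open scoped Classical in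
/-- LOSS in the ideal `{z : lat m r₀ z}` -/
def S_LOSSL (t c : ℤ) (χ : PS f) (m : ℕ) (r₀ : ℤ) : Prop := ∀ s ε : ℝ, 0 < s → 0 < ε →
  ∃ K₀ : ℕ, ∀ K : ℕ, K₀ ≤ K → ∃ κ₀ : ℝ, 0 < κ₀ ∧
  ∀ κ : ℝ, 0 < κ → κ ≤ κ₀ → ∃ Q₀ : ℕ, ∀ Q : ℕ, Q₀ ≤ Q → ∃ X₀ : ℝ, ∀ X : ℝ, X₀ ≤ X →
    ∀ p ∈ PQ χ Q, ∀ δ : Qd t c, nm δ = m * p → lat m r₀ (star δ) →
    (((DL t c m r₀ (X / p)).filter (fun e => 0 < pp e.1 e.2 ∧ s * (m * (X / p)) < (nm e.1 : ℝ) ∧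
      s * (m * (X / p)) < (nm e.2 : ℝ) ∧ ¬ InL m K κ Q X δ e)).card : ℝ) ≤ ε * (X / p)

open scoped Classical in
/-- pairs in the ideal `{z : lat m r₀ z}` with norms in given windows, weighted by `g` -/
noncomputable def AGL (m : ℕ) (r₀ : ℤ) (g : Qd t c × Qd t c → ℂ) (s₁ s₂ s₃ s₄ : ℝ) (X : ℝ) : ℂ :=
  ∑ e ∈ (DL t c m r₀ X).filter (fun e => 0 < pp e.1 e.2 ∧ s₁ * (m * X) < (nm e.1 : ℝ) ∧
    (nm e.1 : ℝ) ≤ s₂ * (m * X) ∧ s₃ * (m * X) < (nm e.2 : ℝ) ∧ (nm e.2 : ℝ) ≤ s₄ * (m * X)), g e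

/-- REGX in the ideal `{z : lat m r₀ z}` -/
def S_REGL (t c : ℤ) (m : ℕ) (r₀ : ℤ) : Prop := ∀ g : Qd t c × Qd t c → ℂ, (∀ e, ‖g e‖ ≤ 1) →
  ∀ (s₁ s₂ s₃ s₄ : ℝ), 0 < s₁ →
  s₁ < s₂ → s₂ ≤ 1 → 0 < s₃ → s₃ < s₄ → s₄ ≤ 1 → ∃ C : ℝ, 0 < C ∧
    (∀ X : ℝ, 0 < X → ‖AGL m r₀ g s₁ s₂ s₃ s₄ X‖ ≤ C * X) ∧
    ∀ δ : ℝ, 0 < δ → δ ≤ 1 → ∃ X₀ : ℝ, ∀ X X' : ℝ, X₀ ≤ X → X ≤ X' → X' ≤ (1 + δ) * X →
      ‖AGL m r₀ g s₁ s₂ s₃ s₄ X' - AGL m r₀ g s₁ s₂ s₃ s₄ X‖ ≤ C * δ * X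

/-- `R` is a relation between the elements of the ideal `{z : lat m r₀ z}`, `R'` the corresponding
relation after multiplication by `δ/m`, which depends on residues modulo `q` only -/
structure RelL (q m : ℕ) (r₀ : ℤ) (R R' : Qd t c → Qd t c → Prop) : Prop where
  per : ∀ v w v' w' : Qd t c, (q : ℤ) ∣ v.re - v'.re → (q : ℤ) ∣ v.im - v'.im →
    (q : ℤ) ∣ w.re - w'.re → (q : ℤ) ∣ w.im - w'.im → (R' v w ↔ R' v' w')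
  dil : ∀ p : ℕ, p.Prime → Nat.Coprime p q → Nat.Coprime p m → ∀ δ : Qd t c, nm δ = m * p →
    lat m r₀ (star δ) → ∀ v w : Qd t c, lat m r₀ v → lat m r₀ w → dt v w = m →
    (R' (dl m δ v) (dl m δ w) ↔ R v w)

/-- AVX in the ideal `{z : lat m r₀ z}` -/
def S_AVXL (t c : ℤ) (χ : PS f) (m : ℕ) (r₀ : ℤ) : Prop := ∀ (N : ℕ)
  (F₁ F₂ : Qd t c → ℂ), Cm N F₁ → Cm N F₂ → ∀ q : ℕ, 1 ≤ q →
  (∀ β : Qd t c, Bta χ (cl q β (fun z => (F₂ z).re)) ∧ Bta χ (cl q β (fun z => (F₂ z).im))) →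
  ∀ R R' : Qd t c → Qd t c → Prop, RelL q m r₀ R R' → ∀ (s₁ s₂ s₃ s₄ : ℝ), 0 < s₁ → s₁ < s₂ →
  s₂ ≤ 1 → 0 < s₃ → s₃ < s₄ → s₄ ≤ 1 → ∀ ε : ℝ, 0 < ε → ∀ Q₁ : ℕ, ∃ Q₂ N₀ : ℕ,
  ∀ N' : ℕ, N₀ ≤ N' →
    ∃ Q : ℕ, Q₁ ≤ Q ∧ Q ≤ Q₂ ∧ ∑ X ∈ Icc 1 N', 1 / (X : ℝ) ^ 2 *
      ‖∑ p ∈ PQ χ Q, ((Real.log p * ((p : ℝ) + 1) : ℝ) : ℂ) *
        AGL m r₀ (g2 F₁ F₂ R) s₁ s₂ s₃ s₄ ((X : ℝ) / p)‖ ≤ ε * Q * Real.log N'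

/-- MAIN in the ideal `{z : lat m r₀ z}` -/
def S_MAINL (t c : ℤ) (χ : PS f) (m : ℕ) (r₀ : ℤ) : Prop := ∀ (N : ℕ)
  (F₁ F₂ : Qd t c → ℂ), Cm N F₁ → Cm N F₂ → ∀ q : ℕ, 1 ≤ q →
  (∀ β : Qd t c, Bta χ (cl q β (fun z => (F₂ z).re)) ∧ Bta χ (cl q β (fun z => (F₂ z).im))) →
  ∀ R R' : Qd t c → Qd t c → Prop, RelL q m r₀ R R' → ∀ (s₁ s₂ s₃ s₄ : ℝ), 0 < s₁ → s₁ < s₂ →
  s₂ ≤ 1 → 0 < s₃ → s₃ < s₄ → s₄ ≤ 1 → ∀ ε : ℝ, 0 < ε → ∃ N₀ : ℕ, ∀ N' : ℕ, N₀ ≤ N' →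
    ∑ X ∈ Icc 1 N', 1 / (X : ℝ) ^ 2 * ‖AGL m r₀ (g2 F₁ F₂ R) s₁ s₂ s₃ s₄ X‖ ≤ ε * Real.log N'

open scoped Classical in
/-- LC5: the primes `p` such that `m p` is the norm of an element with conjugate in the ideal have a
positive density -/
def S_LC5 : Prop := ∀ t c : ℤ, t ^ 2 < 4 * c → ∃ M : ℕ, 1 ≤ M ∧ ∀ (m : ℕ) (r₀ : ℤ), Iv t c m r₀ →
  Nat.Coprime m M → ∃ ρ : ℝ, 0 < ρ ∧ Tendsto (fun x : ℝ => (∑ p ∈ (Icc 1 ⌊x⌋₊).filter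
    (fun p => p.Prime ∧ ∃ δ : Qd t c, nm δ = m * p ∧ lat m r₀ (star δ)), Real.log p) / x)
    atTop (nhds ρ)

open scoped Classical in
/-- the triples `(d, e, n)` of integers with `1 ≤ d, e ≤ X`, `d e = n^2 + t n + c`, `2 n + t > 0` -/
noncomputable def TP (t c : ℤ) (X : ℝ) : Finset (ℕ × ℕ × ℕ) :=
  ((Icc 1 ⌊X⌋₊) ×ˢ (Icc 1 ⌊X⌋₊) ×ˢ (range (⌊X⌋₊ + 1))).filter
    (fun y => ((y.1 : ℤ) * y.2.1 = (y.2.2 : ℤ) ^ 2 + t * y.2.2 + c) ∧ 0 < 2 * (y.2.2 : ℤ) + t)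

open scoped Classical in
/-- the triples with `gcd(d, e, 2 n + t) = 1` -/
noncomputable def TP1 (t c : ℤ) (X : ℝ) : Finset (ℕ × ℕ × ℕ) :=
  (TP t c X).filter
    (fun y => ∀ g : ℤ, g ∣ y.1 → g ∣ y.2.1 → g ∣ 2 * (y.2.2 : ℤ) + t → IsUnit g)

open scoped Classical in
/-- LC6a: the triples with `gcd(d, e, 2 n + t) = 1` and the bases of the ideals in a finite set -/
def S_LC6a : Prop := ∀ t c : ℤ, (t = 0 ∨ t = 1) → t ^ 2 < 4 * c → ∀ M : ℕ, 1 ≤ M →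
  ∃ W : Finset (ℕ × ℤ), (∀ x ∈ W, Iv t c x.1 x.2 ∧ Nat.Coprime x.1 M) ∧
    ∀ (X : ℝ) (G : ℕ → ℕ → ℕ → ℂ),
      ∑ x ∈ W, ∑ e ∈ (DL t c x.1 x.2 X).filter (fun e => 0 < pp e.1 e.2),
        G (nm e.1 / x.1) (nm e.2 / x.1) (ip e.1 e.2 / x.1).toNat =
      uc t c * ∑ y ∈ TP1 t c X, G y.1 y.2.1 y.2.2

/-- LC6b: the content of a triple -/
def S_LC6b : Prop := ∀ t c : ℤ, (t = 0 ∨ t = 1) → t ^ 2 < 4 * c →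
  ∃ W : Finset (ℕ × ℤ × ℤ), (∀ y ∈ W, 1 ≤ y.1 ∧ (y.2.1 = 0 ∨ y.2.1 = 1) ∧ y.2.1 ^ 2 < 4 * y.2.2 ∧
    t ^ 2 - 4 * c = (y.1 : ℤ) ^ 2 * (y.2.1 ^ 2 - 4 * y.2.2)) ∧
    ∀ (X : ℝ) (G : ℕ → ℕ → ℕ → ℂ), ∑ y ∈ TP t c X, G y.1 y.2.1 y.2.2 =
      ∑ y ∈ W, ∑ z ∈ TP1 y.2.1 y.2.2 (X / y.1), G (y.1 * z.1) (y.1 * z.2.1)
        (((y.1 : ℤ) * (2 * z.2.2 + y.2.1) - t) / 2).toNat

/-- LC8: upper bound for the number of triples -/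
def S_LC8 : Prop := ∀ t c : ℤ, (t = 0 ∨ t = 1) → t ^ 2 < 4 * c → ∃ C : ℝ, ∀ m M : ℕ, 1 ≤ m →
  m ≤ M → (((TP t c M).filter (fun y => y.1 ≤ m)).card : ℝ) ≤ C * Real.sqrt (m * M) ∧
    (((TP t c M).filter (fun y => y.2.1 ≤ m)).card : ℝ) ≤ C * Real.sqrt (m * M)

/-- LC9: lower bound for the number of triples in a residue class -/
def S_LC9 : Prop := ∀ t c : ℤ, (t = 0 ∨ t = 1) → t ^ 2 < 4 * c → ∀ q a : ℕ, 1 ≤ q →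
  ∃ c₁ : ℝ, 0 < c₁ ∧ ∃ X₀ : ℕ, ∀ X : ℕ, X₀ ≤ X →
    c₁ * X ≤ (((TP t c X).filter (fun y => y.2.2 ≡ a [MOD q])).card : ℝ)

end Pool.Agent.N912.LC
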