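import Pool.Agent.N912.LC.Stm4
import Pool.Agent.N717.LC.Fino
import Pool.Agent.N912.ED.Em4

/-!
# Project LC (helper912): equidistribution of `H₁(d) + H₂(e)` in a finite abelian group
-/

set_option autoImplicit false

namespace Pool.Agent.N912.LC

open Finset Filter
open Pool.Agent.W78.GA (Qd nm)
open Pool.Agent.N912.EP.W78EG
open Pool.Agent.N912.ED (ig four')
open Pool.Agent.V11296.CV (chpow chnrm nt)
open Pool.Agent.N717.LC (TQ_finite)

section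

variable {G : Type} [AddCommGroup G] [Finite G]

theorem ig_sum {ι : Type} (T : Finset ι) (Φ : ι → G) (g : G) [DecidablePred fun z => Φ z = g] :
    ∑ z ∈ T, ig g (Φ z) =
    ((((T.filter (fun z => Φ z = g)).card : ℝ) - (T.card : ℝ) / Nat.card G : ℝ) : ℂ) := by
  classical
  unfold ig
  rw [sum_sub_distrib, sum_const, nsmul_eq_mul]
  push_cast
  rw [card_filter]
  push_cast
  congr 1
  · refine sum_congr rfl fun x _ => ?_
    split_ifs <;> rfl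
  · ring

theorem cmnG {H : ℕ → G} (hH : AddN H) (ψ : AddChar G ℂ) :
    CMN (Nat.card G) (fun n => ψ (H n)) where
  pos := Nat.card_pos
  mul := fun m n hm hn => by
    rw [hH m n hm hn, AddChar.map_add_eq_mul]
  pow := fun n _ => chpow ψ _

end

theorem fing (h2 : S_CORE2) : S_FING := by
  classical
  intro A B C t c hA ht htc hBD G _ _ H₁ H₂ hH q u r r' g hq s₁ s₂ s₃ s₄ hs1 hs2 hs3 hs4 ε hε
  have : NeZero q := ⟨by omega⟩
  obtain ⟨w, hw⟩ : ∃ w : ZMod q → ZMod q → ZMod q → ℂ, w = fun a b d =>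
      if a = (u : ZMod q) ∧ b = (r : ZMod q) ∧ d = (r' : ZMod q) then 1 else 0 := ⟨_, rfl⟩
  have hfin : ∀ X : ℝ, (TQ A B C s₁ s₂ s₃ s₄ X).Finite := TQ_finite hA s₁ s₂ s₃ s₄
  obtain ⟨F, hF⟩ : ∃ F : ℝ → Finset (ℕ × ℕ × ℕ), F = fun X => (hfin X).toFinset.filter
      (fun y => y.2.2 ≡ u [MOD q] ∧ y.1 ≡ r [MOD q] ∧ y.2.1 ≡ r' [MOD q]) := ⟨_, rfl⟩
  have hUU : ∀ (X : ℝ) (ψ : AddChar G ℂ), ∑ᶠ y ∈ TQ A B C s₁ s₂ s₃ s₄ X,
      w y.2.2 y.1 y.2.1 * (ψ (H₁ y.1) * ψ (H₂ y.2.1)) =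
        ∑ y ∈ F X, (1 : ℂ) * ψ (H₁ y.1 + H₂ y.2.1) := by
    intro X ψ
    rw [finsum_mem_eq_finite_toFinset_sum _ (hfin X), hF, Finset.sum_filter]
    refine Finset.sum_congr rfl fun y _ => ?_
    rw [hw, AddChar.map_add_eq_mul]
    simp only [ZMod.natCast_eq_natCast_iff]
    split_ifs
    · rfl
    · rw [zero_mul]
  have hT : ∀ X : ℝ, Set.ncard (TR A B C q u r r' s₁ s₂ s₃ s₄ X) = (F X).card := by
    intro X
    rw [← Set.ncard_coe_finset]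
    congr 1
    ext y
    rw [hF]
    simp only [TR, Set.mem_ofPred_eq, Finset.coe_filter, Set.Finite.mem_toFinset]
  have hTG : ∀ X : ℝ, Set.ncard {y ∈ TR A B C q u r r' s₁ s₂ s₃ s₄ X | H₁ y.1 + H₂ y.2.1 = g} =
      ((F X).filter (fun y => H₁ y.1 + H₂ y.2.1 = g)).card := by
    intro X
    rw [← Set.ncard_coe_finset]
    congr 1
    ext y
    rw [hF]
    simp only [TR, Set.mem_ofPred_eq, Finset.coe_filter, Finset.mem_filter,
      Set.Finite.mem_toFinset]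
  set E := nt (⊤ : AddSubgroup G) with hE
  set ε' : ℝ := ε / (E.card + 1) with hε'
  have hε'0 : 0 < ε' := by positivity
  have hN0 : ∀ ψ : AddChar G ℂ, ∃ N₀ : ℕ, ψ ∈ E → ∀ N : ℕ, N₀ ≤ N →
      ∑ X ∈ Icc 1 N, 1 / (X : ℝ) ^ 2 * ‖∑ y ∈ F X, (1 : ℂ) * ψ (H₁ y.1 + H₂ y.2.1)‖ ≤
        ε' * Real.log N := by
    intro ψ
    by_cases he : ψ ∈ E
    · have hne : ψ ≠ 1 := by
        rintro rfl
        obtain ⟨d, -, hd⟩ := (mem_filter.1 he).2
        exact hd (AddChar.one_apply d)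
      obtain ⟨N₀, hN₀⟩ := h2 A B C t c hA ht htc hBD (Nat.card G) _ _ (cmnG hH.add₁ ψ)
        (cmnG hH.add₂ ψ) (hH.apd ψ hne) q hq w s₁ s₂ s₃ s₄ hs1 hs2 hs3 hs4 ε' hε'0
      refine ⟨N₀, fun _ N hN => ?_⟩
      have h6 := hN₀ N hN
      simp only [hUU] at h6
      exact h6
    · exact ⟨0, fun h' => absurd h' he⟩
  choose N₀ hN₀ using hN0
  refine ⟨E.sup N₀, fun N hN => ?_⟩
  have hlog : 0 ≤ Real.log N := Real.log_natCast_nonneg N
  calc ∑ X ∈ Icc 1 N, 1 / (X : ℝ) ^ 2 *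
      |(Set.ncard {y ∈ TR A B C q u r r' s₁ s₂ s₃ s₄ X | H₁ y.1 + H₂ y.2.1 = g} : ℝ) -
        (Set.ncard (TR A B C q u r r' s₁ s₂ s₃ s₄ X) : ℝ) / Nat.card G|
      ≤ ∑ X ∈ Icc 1 N, 1 / (X : ℝ) ^ 2 * ∑ ψ ∈ E,
          ‖∑ y ∈ F X, (1 : ℂ) * ψ (H₁ y.1 + H₂ y.2.1)‖ := by
        refine Finset.sum_le_sum fun X _ => mul_le_mul_of_nonneg_left ?_ (by positivity)
        rw [hT, hTG]
        have h7 := ig_sum (F X) (fun y : ℕ × ℕ × ℕ => H₁ y.1 + H₂ y.2.1) g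
        rw [← Real.norm_eq_abs, ← Complex.norm_real, ← h7]
        have h8 := four' (F X) (fun _ => (1 : ℂ)) (fun y : ℕ × ℕ × ℕ => H₁ y.1 + H₂ y.2.1) g
        simp only [one_mul] at h8 ⊢
        exact h8
    _ = ∑ ψ ∈ E, ∑ X ∈ Icc 1 N, 1 / (X : ℝ) ^ 2 *
          ‖∑ y ∈ F X, (1 : ℂ) * ψ (H₁ y.1 + H₂ y.2.1)‖ := by
        simp_rw [Finset.mul_sum]
        rw [Finset.sum_comm]
    _ ≤ ∑ _e ∈ E, ε' * Real.log N :=
        Finset.sum_le_sum fun e he => hN₀ e he N ((Finset.le_sup he).trans hN)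
    _ = E.card * (ε' * Real.log N) := by rw [Finset.sum_const, nsmul_eq_mul]
    _ ≤ ε * Real.log N := by
        have h7 : (E.card : ℝ) * ε' ≤ ε := by
          rw [hε', mul_div_assoc', div_le_iff₀ (by positivity)]
          nlinarith
        calc (E.card : ℝ) * (ε' * Real.log N) = (E.card * ε') * Real.log N := by ring
          _ ≤ ε * Real.log N := mul_le_mul_of_nonneg_right h7 hlog

end Pool.Agent.N912.LC
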