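import Pool.Agent.N912.LC.Mc
import Pool.Agent.N912.LC.Avxl2
import Pool.Agent.N912.LC.Mainl
import Pool.Agent.N912.LC.Fing
import Pool.Agent.N736.LC.Core1
import Pool.Agent.N492.LC.Core2
import Pool.Agent.N814.LC.LC8
import Pool.Agent.N31.LC.L6a
import Pool.Agent.N951.LC.Lc69
import Pool.Agent.N615.RC.RC0
import Pool.Agent.N864.RC.Pnt
import Pool.Agent.N344.LC.Lc10

/-!
# Project LC (helper912): assembly
-/

set_option autoImplicit false

namespace Pool.Agent.N912.LC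

open Finset Filter
open Pool.Agent.N912.EP.W78EG

theorem mcAll : ∀ t c : ℤ, (t = 0 ∨ t = 1) → t ^ 2 < 4 * c → S_MC t c :=
  mc (Pool.Agent.N711.LC.lc5 Pool.Agent.N615.RC.rc0 Pool.Agent.N864.RC.rc1)
    (fun hF _ _ hI he hz hp hd hl hc => avxl hF hI he hz hp hd hl hc)
    (fun hF _ _ hI h1 h2 h3 hc => mainl hF hI h1 h2 h3 hc)

theorem core1 : S_CORE1 :=
  Pool.Agent.N736.LC.core1 mcAll Pool.Agent.N31.LC.lc6a Pool.Agent.N951.LC.lc6b

theorem core2 : S_CORE2 :=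
  Pool.Agent.N492.LC.core2 core1 (Pool.Agent.N814.LC8.lc8 Pool.Agent.N31.LC.lc6a
    Pool.Agent.N951.LC.lc6b)

theorem fingAll : S_FING := fing core2

theorem lc10All : S_LC10 := Pool.Agent.N344.LC.lc10 Pool.Agent.N951.LC.lc9

end Pool.Agent.N912.LC
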