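import Pool.Agent.N912.LC.Stm
import Pool.Agent.N912.EP.N912ELAvx1
import Pool.Agent.N426.LC.Dl

/-!
Project LC (helper912): the mean over the primes in an ideal class, part 1 (port of EP/N912ELAvx1).
-/

set_option autoImplicit false

namespace Pool.Agent.N912.LC

open Finset Filter
open Pool.Agent.W78.GA (Qd nm prim dt ip lat ball pball edge dedge nm_castR nm_cast mem_ball mem_pball)
open Pool.Agent.W78.EC (Tr av)
open Pool.Agent.W251.GX (Cm)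
open Pool.Agent.N912.EP.W78EG
open Pool.Agent.N912.EP.W940EG
open Pool.Agent.N912.EP.N912EL
open Pool.Agent.N426.LC (dl_spec nm_dl pp_dl exists_el)

variable {t c : ℤ} {f : ℕ} {χ : PS f} {m : ℕ} {r₀ : ℤ}

theorem sum_dL {N : ℕ} {F₁ F₂ : Qd t c → ℂ} (h1 : Cm N F₁) (h2 : Cm N F₂) {q : ℕ} (hq : 1 ≤ q)
    {R R' : Qd t c → Qd t c → Prop} (hR : RelL q m r₀ R R') (s₁ s₂ s₃ s₄ X : ℝ) (v w : Qd t c) :
    ∑ k ∈ Cs q, d1 R' k (lb2 h1 h2 hq s₁ s₂ s₃ s₄ X v) * d2 k (lb2 h1 h2 hq s₁ s₂ s₃ s₄ X w) =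
      G2 F₁ F₂ R' s₁ s₂ s₃ s₄ X v w := by
  rw [sum_eq_single (cls q w)]
  · have hR' : R' (rp (cls q v)) (rp (cls q w)) ↔ R' v w := by
      obtain ⟨a1, a2⟩ := rp_cls hq v
      obtain ⟨b1, b2⟩ := rp_cls hq w
      exact (hR.per _ _ _ _ a1 a2 b1 b2).symm
    have e2 : d2 (cls q w) (lb2 h1 h2 hq s₁ s₂ s₃ s₄ X w) = wF F₂ s₃ s₄ X w := by
      unfold d2 lb2
      simp only [if_true]
    rw [e2]
    unfold G2
    by_cases h : R' v w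
    · have e1 : d1 R' (cls q w) (lb2 h1 h2 hq s₁ s₂ s₃ s₄ X v) = wF F₁ s₁ s₂ X v := by
        unfold d1 lb2
        exact if_pos (hR'.mpr h)
      rw [e1, if_pos h]
    · have e1 : d1 R' (cls q w) (lb2 h1 h2 hq s₁ s₂ s₃ s₄ X v) = 0 := by
        unfold d1 lb2
        exact if_neg (fun h' => h (hR'.mp h'))
      rw [e1, if_neg h, zero_mul]
  · intro k _ hc
    have e2 : d2 k (lb2 h1 h2 hq s₁ s₂ s₃ s₄ X w) = 0 := by
      unfold d2 lb2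
      simp only
      rw [if_neg (fun h => hc h.symm)]
    rw [e2, mul_zero]
  · intro h
    exact absurd (cls_mem hq w) h

theorem AGL_eq (F₁ F₂ : Qd t c → ℂ) (R : Qd t c → Qd t c → Prop) (s₁ s₂ s₃ s₄ X : ℝ) :
    AGL m r₀ (g2 F₁ F₂ R) s₁ s₂ s₃ s₄ X =
      ∑ e ∈ (DL t c m r₀ X).filter (fun e => 0 < pp e.1 e.2),
      G2 F₁ F₂ R s₁ s₂ s₃ s₄ (m * X) e.1 e.2 := by
  classical
  have hfil : (DL t c m r₀ X).filter (fun e => 0 < pp e.1 e.2 ∧ s₁ * (m * X) < (nm e.1 : ℝ) ∧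
      (nm e.1 : ℝ) ≤ s₂ * (m * X) ∧ s₃ * (m * X) < (nm e.2 : ℝ) ∧
      (nm e.2 : ℝ) ≤ s₄ * (m * X)) =
      ((DL t c m r₀ X).filter (fun e => 0 < pp e.1 e.2)).filter (fun e =>
        s₁ * (m * X) < (nm e.1 : ℝ) ∧ (nm e.1 : ℝ) ≤ s₂ * (m * X) ∧
        s₃ * (m * X) < (nm e.2 : ℝ) ∧ (nm e.2 : ℝ) ≤ s₄ * (m * X)) := by
    rw [filter_filter]
  have hAG : AGL m r₀ (g2 F₁ F₂ R) s₁ s₂ s₃ s₄ X = ∑ e ∈ ((DL t c m r₀ X).filter
      (fun e => 0 < pp e.1 e.2)).filter (fun e =>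
        s₁ * (m * X) < (nm e.1 : ℝ) ∧ (nm e.1 : ℝ) ≤ s₂ * (m * X) ∧
        s₃ * (m * X) < (nm e.2 : ℝ) ∧ (nm e.2 : ℝ) ≤ s₄ * (m * X)), g2 F₁ F₂ R e := by
    rw [← hfil]
    unfold AGL
    exact sum_congr (by congr) fun _ _ => rfl
  rw [hAG, sum_filter]
  refine sum_congr rfl fun e _ => ?_
  unfold g2 G2 wF
  by_cases h1 : s₁ * (m * X) < (nm e.1 : ℝ) ∧ (nm e.1 : ℝ) ≤ s₂ * (m * X) <;>
  by_cases h2 : s₃ * (m * X) < (nm e.2 : ℝ) ∧ (nm e.2 : ℝ) ≤ s₄ * (m * X)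
  · rw [if_pos ⟨h1.1, h1.2, h2.1, h2.2⟩, if_pos h1, if_pos h2]
  · rw [if_neg (fun h => h2 ⟨h.2.2.1, h.2.2.2⟩), if_neg h2]
    simp
  · rw [if_neg (fun h => h1 ⟨h.1, h.2.1⟩), if_neg h1]
    simp
  · rw [if_neg (fun h => h1 ⟨h.1, h.2.1⟩), if_neg h1]
    simp

theorem wF_dl {N : ℕ} {F : Qd t c → ℂ} (hF : Cm N F) (hI : Iv t c m r₀) {p : ℕ} (hp : p.Prime)
    {δ : Qd t c} (hn : nm δ = m * p) (hδ : lat m r₀ (star δ)) {s₁ s₂ X : ℝ} (h0 : 0 ≤ s₁ * X)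
    {z : Qd t c} (hz : lat m r₀ z) :
    F (m : Qd t c) * wF F s₁ s₂ X (dl m δ z) = F δ * wF F s₁ s₂ (m * (X / p)) z := by
  have hp0 : (0 : ℝ) < p := by exact_mod_cast hp.pos
  have hm0 : (0 : ℝ) < m := by exact_mod_cast hI.pos
  have hmN : m ≠ 0 := by have := hI.pos; omega
  have h1 : (m : ℝ) * (nm (dl m δ z) : ℝ) = p * nm z := by exact_mod_cast nm_dl hI hn hδ hz
  have h1' : (nm (dl m δ z) : ℝ) = p * nm z / m := by
    rw [eq_div_iff hm0.ne']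
    linarith
  have h2 : s₁ * X < (nm (dl m δ z) : ℝ) ↔ s₁ * (m * (X / p)) < (nm z : ℝ) := by
    rw [h1', lt_div_iff₀ hm0]
    have e : s₁ * (m * (X / p)) = s₁ * X * m / p := by ring
    rw [e, div_lt_iff₀ hp0, mul_comm (p : ℝ)]
  have h3 : (nm (dl m δ z) : ℝ) ≤ s₂ * X ↔ (nm z : ℝ) ≤ s₂ * (m * (X / p)) := by
    rw [h1', div_le_iff₀ hm0]
    have e : s₂ * (m * (X / p)) = s₂ * X * m / p := by ring
    rw [e, le_div_iff₀ hp0, mul_comm (p : ℝ)]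
  unfold wF
  by_cases hc : s₁ * (m * (X / p)) < (nm z : ℝ) ∧ (nm z : ℝ) ≤ s₂ * (m * (X / p))
  · rw [if_pos (by rw [h2, h3]; exact hc), if_pos hc]
    have hz0 : z ≠ 0 := by
      rintro rfl
      have := hc.1
      rw [Pool.Agent.W78.GA.nm_zero] at this
      have h4 : 0 ≤ s₁ * (m * (X / p)) := by
        have e : s₁ * (m * (X / p)) = s₁ * X * m / p := by ring
        rw [e]
        positivity
      push_cast at this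
      linarith
    have hδ0 : δ ≠ 0 := by
      rintro rfl
      rw [Pool.Agent.W78.GA.nm_zero] at hn
      exact (Nat.mul_ne_zero hmN hp.ne_zero) hn.symm
    have hs := dl_spec hI hδ hz
    have hn1 : nm z ≠ 0 := by
      have h5 := hc.1
      have h4 : 0 ≤ s₁ * (m * (X / p)) := by
        have e : s₁ * (m * (X / p)) = s₁ * X * m / p := by ring
        rw [e]
        positivity
      intro h6
      rw [h6] at h5
      push_cast at h5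
      linarith
    have hd0 : dl m δ z ≠ 0 := by
      intro h
      have h5 := nm_dl hI hn hδ hz
      rw [h, Pool.Agent.W78.GA.nm_zero, mul_zero] at h5
      exact (Nat.mul_ne_zero hp.ne_zero hn1) h5.symm
    have hmq : (m : Qd t c) ≠ 0 := by
      intro h
      have h5 := congrArg QuadraticAlgebra.re h
      simp only [QuadraticAlgebra.re_natCast, QuadraticAlgebra.re_zero] at h5
      exact hmN (by exact_mod_cast h5)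
    rw [← hF.mul _ _ hmq hd0, hs, hF.mul _ _ hδ0 hz0]
  · rw [if_neg (by rw [h2, h3]; exact hc), if_neg hc, mul_zero, mul_zero]

theorem G2_dl {N : ℕ} {F₁ F₂ : Qd t c → ℂ} (c1 : Cm N F₁) (c2 : Cm N F₂) (hI : Iv t c m r₀)
    {q : ℕ} {R R' : Qd t c → Qd t c → Prop} (hR : RelL q m r₀ R R') {p : ℕ} (hp : p.Prime)
    (hpq : Nat.Coprime p q) (hpm : Nat.Coprime p m) {δ : Qd t c} (hn : nm δ = m * p)
    (hδ : lat m r₀ (star δ)) {s₁ s₂ s₃ s₄ X : ℝ} (h0 : 0 ≤ s₁ * X)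
    (h0' : 0 ≤ s₃ * X) {v w : Qd t c} (hv : lat m r₀ v) (hw : lat m r₀ w) (hd : dt v w = m) {u : ℂ}
    (hu : u * (F₁ δ * F₂ δ) = F₁ (m : Qd t c) * F₂ (m : Qd t c)) :
    u * G2 F₁ F₂ R' s₁ s₂ s₃ s₄ X (dl m δ v) (dl m δ w) =
      G2 F₁ F₂ R s₁ s₂ s₃ s₄ (m * (X / p)) v w := by
  unfold G2
  have h1 : R' (dl m δ v) (dl m δ w) ↔ R v w := hR.dil p hp hpq hpm δ hn hδ v w hv hw hd
  have h2 := wF_dl c1 hI hp hn hδ (s₂ := s₂) h0 hv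
  have h3 := wF_dl c2 hI hp hn hδ (s₂ := s₄) h0' hw
  have h4 : F₁ (m : Qd t c) * F₂ (m : Qd t c) ≠ 0 := by
    intro h
    have h5 : ‖F₁ (m : Qd t c) * F₂ (m : Qd t c)‖ = 1 := by
      rw [norm_mul, norm_F c1, norm_F c2, one_mul]
    rw [h, norm_zero] at h5
    exact zero_ne_one h5
  by_cases h : R v w
  · rw [if_pos (h1.mpr h), if_pos h]
    apply mul_left_cancel₀ h4
    calc F₁ (m : Qd t c) * F₂ (m : Qd t c) *
          (u * (wF F₁ s₁ s₂ X (dl m δ v) * wF F₂ s₃ s₄ X (dl m δ w)))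
        = u * ((F₁ (m : Qd t c) * wF F₁ s₁ s₂ X (dl m δ v)) *
            (F₂ (m : Qd t c) * wF F₂ s₃ s₄ X (dl m δ w))) := by ring
      _ = u * (F₁ δ * F₂ δ) * (wF F₁ s₁ s₂ (m * (X / p)) v * wF F₂ s₃ s₄ (m * (X / p)) w) := by
          rw [h2, h3]
          ring
      _ = _ := by rw [hu]
  · rw [if_neg (fun h' => h (h1.mp h')), if_neg h, mul_zero]

theorem mem_DL {X : ℝ} {e : Qd t c × Qd t c} (h : e ∈ DL t c m r₀ X) :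
    lat m r₀ e.1 ∧ lat m r₀ e.2 ∧ dt e.1 e.2 = m := by
  classical
  unfold DL at h
  exact (mem_filter.1 h).2

open scoped Classical in
/-- the loss for one prime -/
theorem AGL_split {N : ℕ} {F₁ F₂ : Qd t c → ℂ} (c1 : Cm N F₁) (c2 : Cm N F₂) (hI : Iv t c m r₀)
    {q : ℕ} (hq : 1 ≤ q) {R R' : Qd t c → Qd t c → Prop} (hR : RelL q m r₀ R R') {p : ℕ}
    (hp : p.Prime) (hpq : Nat.Coprime p q) (hpm : Nat.Coprime p m) {π : Qd t c}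
    (hn : nm π = m * p) (hπ : lat m r₀ (star π)) {u : ℂ}
    (hu : u * (F₁ π * F₂ π) = F₁ (m : Qd t c) * F₂ (m : Qd t c))
    {s s₁ s₂ s₃ s₄ X : ℝ} (h0 : 0 ≤ s₁ * X) (h0' : 0 ≤ s₃ * X)
    (hs1 : s * X ≤ s₁ * X) (hs3 : s * X ≤ s₃ * X) {K : ℕ} {κ : ℝ} {Q : ℕ} {δ : ℝ}
    (hG : ∀ e ∈ DL t c m r₀ (X / p), InL m K κ Q X π e → 0 < pp e.1 e.2)
    (hL : (((DL t c m r₀ (X / p)).filter (fun e => 0 < pp e.1 e.2 ∧
      s * (m * (X / p)) < (nm e.1 : ℝ) ∧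
      s * (m * (X / p)) < (nm e.2 : ℝ) ∧ ¬ InL m K κ Q X π e)).card : ℝ) ≤ δ) :
    ‖AGL m r₀ (g2 F₁ F₂ R) s₁ s₂ s₃ s₄ (X / p) -
      u * ∑ k ∈ Cs q, ∑ e ∈ (DL t c m r₀ (X / p)).filter (InL m K κ Q X π),
        d1 R' k (lb2 c1 c2 hq s₁ s₂ s₃ s₄ X (dl m π e.1)) *
          d2 k (lb2 c1 c2 hq s₁ s₂ s₃ s₄ X (dl m π e.2))‖ ≤ δ := by
  have hp0 : (0 : ℝ) < p := by exact_mod_cast hp.pos
  have hm0 : (0 : ℝ) < m := by exact_mod_cast hI.pos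
  have hII : (DL t c m r₀ (X / p)).filter (InL m K κ Q X π) =
      ((DL t c m r₀ (X / p)).filter (fun e => 0 < pp e.1 e.2)).filter (InL m K κ Q X π) := by
    rw [filter_filter]
    exact filter_congr fun e he => ⟨fun h => ⟨hG e he h, h⟩, fun h => h.2⟩
  rw [sum_comm]
  simp only [sum_dL c1 c2 hq hR]
  rw [mul_sum]
  have hu2 : ∑ e ∈ (DL t c m r₀ (X / p)).filter (InL m K κ Q X π),
      u * G2 F₁ F₂ R' s₁ s₂ s₃ s₄ X (dl m π e.1) (dl m π e.2) =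
      ∑ e ∈ (DL t c m r₀ (X / p)).filter (InL m K κ Q X π),
        G2 F₁ F₂ R s₁ s₂ s₃ s₄ (m * (X / p)) e.1 e.2 := by
    refine sum_congr rfl fun e he => ?_
    obtain ⟨a1, a2, a3⟩ := mem_DL (mem_filter.1 he).1
    exact G2_dl c1 c2 hI hR hp hpq hpm hn hπ h0 h0' a1 a2 a3 hu
  rw [hu2, hII, AGL_eq,
    ← sum_filter_add_sum_filter_not ((DL t c m r₀ (X / p)).filter (fun e => 0 < pp e.1 e.2))
      (InL m K κ Q X π), add_sub_cancel_left]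
  refine (norm_sum_le _ _).trans (le_trans ?_ hL)
  have h1 : ∀ e ∈ ((DL t c m r₀ (X / p)).filter (fun e => 0 < pp e.1 e.2)).filter
      (fun e => ¬ InL m K κ Q X π e),
      ‖G2 F₁ F₂ R s₁ s₂ s₃ s₄ (m * (X / p)) e.1 e.2‖ ≤
      if s * (m * (X / p)) < (nm e.1 : ℝ) ∧ s * (m * (X / p)) < (nm e.2 : ℝ) then (1 : ℝ)
        else 0 := by
    intro e _
    split_ifs with hc
    · exact norm_G2 c1 c2 _ _ _ _ _ _ _ _
    · have ha : s * (m * (X / p)) ≤ s₁ * (m * (X / p)) := by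
        have e1 : ∀ x : ℝ, x * (m * (X / p)) = x * X * (m / p) := fun x => by ring
        rw [e1, e1]
        exact mul_le_mul_of_nonneg_right hs1 (by positivity)
      have hb : s * (m * (X / p)) ≤ s₃ * (m * (X / p)) := by
        have e1 : ∀ x : ℝ, x * (m * (X / p)) = x * X * (m / p) := fun x => by ring
        rw [e1, e1]
        exact mul_le_mul_of_nonneg_right hs3 (by positivity)
      have hz : G2 F₁ F₂ R s₁ s₂ s₃ s₄ (m * (X / p)) e.1 e.2 = 0 := by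
        unfold G2 wF
        by_cases h2 : s₁ * (m * (X / p)) < (nm e.1 : ℝ) ∧ (nm e.1 : ℝ) ≤ s₂ * (m * (X / p))
        · have h3 : ¬ (s₃ * (m * (X / p)) < (nm e.2 : ℝ) ∧
              (nm e.2 : ℝ) ≤ s₄ * (m * (X / p))) := by
            intro h3
            exact hc ⟨by linarith [h2.1], by linarith [h3.1]⟩
          rw [if_neg h3]
          simp
        · rw [if_neg h2]
          simp
      rw [hz, norm_zero]
  refine (sum_le_sum h1).trans ?_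
  rw [sum_boole, filter_filter, filter_filter]
  refine le_of_eq ?_
  congr 2
  refine filter_congr fun e _ => ?_
  tauto

/-- pairs in a cone over a good edge have positive inner product -/
theorem InL_pp (hF : Fd t c f χ) (hI : Iv t c m r₀) {K : ℕ} {κ : ℝ} {Q : ℕ} {X : ℝ} {p : ℕ}
    {π : Qd t c} (hn : nm π = m * p) (hπ : lat m r₀ (star π)) (hK : 1 ≤ K)
    (hκ : 0 < κ) (hQ : 1 ≤ Q) (hX : f * (K * Q : ℝ) ≤ X) {e : Qd t c × Qd t c}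
    (h1 : lat m r₀ e.1) (h2 : lat m r₀ e.2)
    (h : InL m K κ Q X π e) : 0 < pp e.1 e.2 := by
  have hD := Pool.Agent.N912.ED.W804EG.hD_of (toED hF)
  have h3 : InG K κ Q X (1 : Qd t c) (dl m π e.1, dl m π e.2) := by
    obtain ⟨g, hg, a1, a2⟩ := h
    refine ⟨g, hg, ?_, ?_⟩
    · rw [one_mul]
      exact a1
    · rw [one_mul]
      exact a2
  have h4 := InG_pp hF hK hκ hQ hX h3
  have h5 := pp_dl hD hI hn hπ h1 h2
  have hm0 : (0 : ℤ) < m := by exact_mod_cast hI.pos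
  have h6 : (0 : ℤ) < p * pp e.1 e.2 := by
    rw [← h5]
    exact mul_pos hm0 h4
  rcases Nat.eq_zero_or_pos p with h0 | h0
  · rw [h0] at h6
    simp at h6
  · exact (pos_iff_pos_of_mul_pos h6).1 (by exact_mod_cast h0)

open scoped Classical in
/-- the estimate for fixed `X` -/
theorem per_X2L (hF : Fd t c f χ) (hI : Iv t c m r₀) (hp : S_PERL t c χ m r₀) {N : ℕ} {F₁ F₂ : Qd t c → ℂ}
    (c1 : Cm N F₁) (c2 : Cm N F₂) {q : ℕ}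
    (hq : 1 ≤ q) {R R' : Qd t c → Qd t c → Prop} (hR : RelL q m r₀ R R') {K : ℕ} {κ : ℝ} {Q : ℕ}
    {s s₁ s₂ s₃ s₄ X ε₃ ε' : ℝ} (hs₁ : 0 < s₁) (hs₃ : 0 < s₃) (hs1 : s ≤ s₁) (hs3 : s ≤ s₃)
    (hK : 1 ≤ K) (hκ : 0 < κ) (hQ : 1 ≤ Q) (hqQ : q ≤ Q) (hX : f * (K * Q : ℝ) ≤ X)
    (ϖ : ℕ → Qd t c) (rr : ℕ → ℤ) (hϖ : ∀ p ∈ PQ χ Q, El t c m r₀ p (ϖ p) (rr p))
    (u : ℕ → ℂ) (hun : ∀ p, ‖u p‖ ≤ 1) (hu : ∀ p ∈ PQ χ Q, u p * (F₁ (ϖ p) * F₂ (ϖ p)) =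
      F₁ (m : Qd t c) * F₂ (m : Qd t c))
    (ζ₁ ζ₂ : ℕ × ℕ → ℕ → Tr (Lab N q) → ℕ × ℕ × ℕ × ℕ → ℝ)
    (hζ : ∀ k ∈ Cs q, ∀ e ∈ good t c K κ Q X, ∀ p ∈ PQ χ Q,
      (((ζ₁ k p (TT (lb2 c1 c2 hq s₁ s₂ s₃ s₄ X) X e) (res p e) : ℝ) : ℂ) +
        Complex.I * ((ζ₂ k p (TT (lb2 c1 c2 hq s₁ s₂ s₃ s₄ X) X e) (res p e) : ℝ) : ℂ) =
      (((p : ℝ) + 1) / (2 * Q) : ℝ) * ∑ z ∈ cone X e.1 e.2, ∑ w ∈ cone X e.1 e.2,
        (if dt z w = p ∧ lat p (rr p) z then d1 R' k (lb2 c1 c2 hq s₁ s₂ s₃ s₄ X z) *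
          d2 k (lb2 c1 c2 hq s₁ s₂ s₃ s₄ X w) else 0)) ∧
      (((av p (ζ₁ k p) (TT (lb2 c1 c2 hq s₁ s₂ s₃ s₄ X) X e) : ℝ) : ℂ) +
        Complex.I * ((av p (ζ₂ k p) (TT (lb2 c1 c2 hq s₁ s₂ s₃ s₄ X) X e) : ℝ) : ℂ) =
      (1 / (2 * (Q : ℝ)) : ℝ) * ∑ z ∈ cone X e.1 e.2, ∑ w ∈ cone X e.1 e.2,
        (if dt z w = p then d1 R' k (lb2 c1 c2 hq s₁ s₂ s₃ s₄ X z) *
          d2 k (lb2 c1 c2 hq s₁ s₂ s₃ s₄ X w) else 0)))
    (hB : ∀ k ∈ Cs q, ∀ a : ℕ → ℝ, (∀ m, |a m| ≤ 1) → ∀ α : Qd t c → ℝ, (∀ z, |α z| ≤ 1) → (∀ z, α z ≠ 0 → s₁ * X < (nm z : ℝ)) →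
      |∑ e ∈ good t c K κ Q X, ∑ v ∈ cone X e.1 e.2, ∑ w ∈ cw X s₃ s₄ e.1 e.2,
        α v * cl q (rp k) (fun z => (F₂ z).re) w * ta χ a Q (dt v w)| ≤ ε₃ * X * Q ∧
      |∑ e ∈ good t c K κ Q X, ∑ v ∈ cone X e.1 e.2, ∑ w ∈ cw X s₃ s₄ e.1 e.2,
        α v * cl q (rp k) (fun z => (F₂ z).im) w * ta χ a Q (dt v w)| ≤ ε₃ * X * Q)
    (hε' : 0 ≤ ε')
    (hL : ∀ p ∈ PQ χ Q, ∀ π : Qd t c, nm π = m * p → lat m r₀ (star π) →
      (((DL t c m r₀ (X / p)).filter (fun e => 0 < pp e.1 e.2 ∧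
        s * (m * (X / p)) < (nm e.1 : ℝ) ∧
        s * (m * (X / p)) < (nm e.2 : ℝ) ∧ ¬ InL m K κ Q X π e)).card : ℝ) ≤ ε' * (X / p)) :
    ‖∑ p ∈ PQ χ Q, ((Real.log p * ((p : ℝ) + 1) : ℝ) : ℂ) *
        AGL m r₀ (g2 F₁ F₂ R) s₁ s₂ s₃ s₄ (X / p)‖ ≤
      2 * Q * ∑ k ∈ Cs q, ∑ e ∈ edge t c (X / (K * Q)),
        (|∑ p ∈ PQ χ Q, Real.log p *
          (((u p).re * ζ₁ k p (TT (lb2 c1 c2 hq s₁ s₂ s₃ s₄ X) X e) (res p e) -
            (u p).im * ζ₂ k p (TT (lb2 c1 c2 hq s₁ s₂ s₃ s₄ X) X e) (res p e)) -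
          av p (fun T y => (u p).re * ζ₁ k p T y - (u p).im * ζ₂ k p T y)
            (TT (lb2 c1 c2 hq s₁ s₂ s₃ s₄ X) X e))| +
        |∑ p ∈ PQ χ Q, Real.log p *
          (((u p).re * ζ₂ k p (TT (lb2 c1 c2 hq s₁ s₂ s₃ s₄ X) X e) (res p e) +
            (u p).im * ζ₁ k p (TT (lb2 c1 c2 hq s₁ s₂ s₃ s₄ X) X e) (res p e)) -
          av p (fun T y => (u p).re * ζ₂ k p T y + (u p).im * ζ₁ k p T y)
            (TT (lb2 c1 c2 hq s₁ s₂ s₃ s₄ X) X e))|) +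
      (8 * (Cs q).card * ε₃ * X * Q + 2 * ε' * X * ∑ p ∈ PQ χ Q, Real.log p) := by
  have hKQ : (0 : ℝ) < K * Q := by
    have h1 : (1 : ℝ) ≤ K := by exact_mod_cast hK
    have h2 : (1 : ℝ) ≤ Q := by exact_mod_cast hQ
    positivity
  have hX0 : 0 ≤ X := le_trans (by positivity) hX
  obtain ⟨S, hS⟩ : ∃ S : ℕ × ℕ → ℕ → ℂ, S = fun (k : ℕ × ℕ) (p : ℕ) =>
      ∑ e ∈ (DL t c m r₀ (X / p)).filter (InL m K κ Q X (ϖ p)),
        d1 R' k (lb2 c1 c2 hq s₁ s₂ s₃ s₄ X (dl m (ϖ p) e.1)) *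
          d2 k (lb2 c1 c2 hq s₁ s₂ s₃ s₄ X (dl m (ϖ p) e.2)) := ⟨_, rfl⟩
  -- each class
  have hc1 : ∀ k ∈ Cs q, ‖∑ p ∈ PQ χ Q, ((Real.log p * ((p : ℝ) + 1) : ℝ) : ℂ) *
      (u p * S k p)‖ ≤
      2 * Q * ∑ e ∈ edge t c (X / (K * Q)),
        (|∑ p ∈ PQ χ Q, Real.log p *
          (((u p).re * ζ₁ k p (TT (lb2 c1 c2 hq s₁ s₂ s₃ s₄ X) X e) (res p e) -
            (u p).im * ζ₂ k p (TT (lb2 c1 c2 hq s₁ s₂ s₃ s₄ X) X e) (res p e)) -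
          av p (fun T y => (u p).re * ζ₁ k p T y - (u p).im * ζ₂ k p T y)
            (TT (lb2 c1 c2 hq s₁ s₂ s₃ s₄ X) X e))| +
        |∑ p ∈ PQ χ Q, Real.log p *
          (((u p).re * ζ₂ k p (TT (lb2 c1 c2 hq s₁ s₂ s₃ s₄ X) X e) (res p e) +
            (u p).im * ζ₁ k p (TT (lb2 c1 c2 hq s₁ s₂ s₃ s₄ X) X e) (res p e)) -
          av p (fun T y => (u p).re * ζ₂ k p T y + (u p).im * ζ₁ k p T y)
            (TT (lb2 c1 c2 hq s₁ s₂ s₃ s₄ X) X e))|) +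
      8 * (ε₃ * X * Q) := by
    intro k hc
    have h1 := hp K κ Q X (Lab N q) (d1 R' k) (d2 k) (lb2 c1 c2 hq s₁ s₂ s₃ s₄ X) ϖ rr
      u (ζ₁ k) (ζ₂ k) hK hκ hQ hX hϖ (hζ k hc)
    have h2 := bilA (χ := χ) c1 c2 hq R' (K := K) (κ := κ) (Q := Q) (s₁ := s₁) (s₂ := s₂)
      (s₃ := s₃) (s₄ := s₄) (X := X) k hc u hun (fun a a0 α a1 a2 => (hB k hc a a0 α a1 a2).1)
      (fun a a0 α a1 a2 => (hB k hc a a0 α a1 a2).2)
    rw [hS]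
    exact h1.trans (by linarith)
  -- the loss
  have hloss : ‖∑ p ∈ PQ χ Q, ((Real.log p * ((p : ℝ) + 1) : ℝ) : ℂ) *
      (AGL m r₀ (g2 F₁ F₂ R) s₁ s₂ s₃ s₄ (X / p) - u p * ∑ k ∈ Cs q, S k p)‖ ≤
      2 * ε' * X * ∑ p ∈ PQ χ Q, Real.log p := by
    rw [mul_sum]
    refine (norm_sum_le _ _).trans (sum_le_sum fun p hpm => ?_)
    have hpp := (PQ_mem hpm).2.2.1
    have hp0 : (0 : ℝ) < p := by exact_mod_cast hpp.pos
    have hp1 : (1 : ℝ) ≤ p := by exact_mod_cast hpp.one_lt.le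
    have hcop : Nat.Coprime p q := by
      rw [Nat.Prime.coprime_iff_not_dvd hpp]
      intro hd
      have h1 := Nat.le_of_dvd (by omega) hd
      have h2 := (PQ_mem hpm).1
      omega
    have h1 := AGL_split c1 c2 hI hq hR hpp hcop (hϖ p hpm).cop (hϖ p hpm).nrm (hϖ p hpm).con
      (hu p hpm) (s := s) (s₁ := s₁) (s₂ := s₂) (s₃ := s₃)
      (s₄ := s₄) (X := X) (by positivity) (by positivity) (mul_le_mul_of_nonneg_right hs1 hX0)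
      (mul_le_mul_of_nonneg_right hs3 hX0)
      (fun e he h => InL_pp hF hI (hϖ p hpm).nrm (hϖ p hpm).con hK hκ hQ hX (mem_DL he).1
        (mem_DL he).2.1 h)
      (hL p hpm _ (hϖ p hpm).nrm (hϖ p hpm).con)
    rw [norm_mul, Complex.norm_real, Real.norm_eq_abs,
      abs_of_nonneg (mul_nonneg (log_nonneg_PQ hpm) (by positivity))]
    have h1' : ‖AGL m r₀ (g2 F₁ F₂ R) s₁ s₂ s₃ s₄ (X / p) - u p * ∑ k ∈ Cs q, S k p‖ ≤ ε' * (X / p) := by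
      rw [hS]
      exact h1
    calc Real.log p * ((p : ℝ) + 1) * ‖AGL m r₀ (g2 F₁ F₂ R) s₁ s₂ s₃ s₄ (X / p) -
          u p * ∑ k ∈ Cs q, S k p‖ ≤ Real.log p * ((p : ℝ) + 1) * (ε' * (X / p)) :=
          mul_le_mul_of_nonneg_left h1' (mul_nonneg (log_nonneg_PQ hpm) (by positivity))
      _ = Real.log p * ε' * X * (((p : ℝ) + 1) / p) := by ring
      _ ≤ Real.log p * ε' * X * 2 := by
          refine mul_le_mul_of_nonneg_left ?_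
            (mul_nonneg (mul_nonneg (log_nonneg_PQ hpm) hε') hX0)
          rw [div_le_iff₀ hp0]
          linarith
      _ = 2 * ε' * X * Real.log p := by ring
  have hdec : ∑ p ∈ PQ χ Q, ((Real.log p * ((p : ℝ) + 1) : ℝ) : ℂ) *
        AGL m r₀ (g2 F₁ F₂ R) s₁ s₂ s₃ s₄ (X / p) =
      ∑ p ∈ PQ χ Q, ((Real.log p * ((p : ℝ) + 1) : ℝ) : ℂ) *
        (AGL m r₀ (g2 F₁ F₂ R) s₁ s₂ s₃ s₄ (X / p) - u p * ∑ k ∈ Cs q, S k p) +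
      ∑ k ∈ Cs q, ∑ p ∈ PQ χ Q, ((Real.log p * ((p : ℝ) + 1) : ℝ) : ℂ) * (u p * S k p) := by
    rw [sum_comm, ← sum_add_distrib]
    refine sum_congr rfl fun p _ => ?_
    rw [← mul_sum, ← mul_sum]
    ring
  rw [hdec]
  refine (norm_add_le _ _).trans ?_
  have hcs := (norm_sum_le (Cs q) (fun k => ∑ p ∈ PQ χ Q,
    ((Real.log p * ((p : ℝ) + 1) : ℝ) : ℂ) * (u p * S k p))).trans (sum_le_sum hc1)
  rw [sum_add_distrib, sum_const, nsmul_eq_mul, ← mul_sum] at hcs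
  have e : ((Cs q).card : ℝ) * (8 * (ε₃ * X * Q)) = 8 * (Cs q).card * ε₃ * X * Q := by ring
  rw [e] at hcs
  linarith


end Pool.Agent.N912.LC
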