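import Pool.Agent.N912.LC.Stm4
import Pool.Agent.N912.EP.All
import Pool.Agent.N426.LC.Bij
import Pool.Agent.N80.LC.Loss
import Pool.Agent.N196.LC.Regl
import Pool.Agent.N711.LC.LC5

/-!
# Project LC (helper912): the two-factor theorem in the ideal classes of an imaginary quadratic order
-/

set_option autoImplicit false

namespace Pool.Agent.N912.LC

open Finset Filter
open Pool.Agent.W78.GA (Qd nm prim dt ip lat ball pball edge dedge ang)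
open Pool.Agent.W251.GX (Cm)
open Pool.Agent.N912.EP
open Pool.Agent.N912.EP.W78EG
open Pool.Agent.N912.EP.N912EL (Bta)

/-- the statement of the theorem of task LC4 (first part) -/
def S_AVXLall : Prop := ∀ {t c : ℤ} {f : ℕ} {χ : PS f} (_ : Fd t c f χ) {m : ℕ} {r₀ : ℤ}
  (_ : Iv t c m r₀) (_ : ∀ p : ℕ, p.Prime → χ p → ∃ δ : Qd t c, nm δ = m * p ∧ lat m r₀ (star δ))
  (_ : S_ZX t c χ) (_ : S_PERL t c χ m r₀) (_ : S_DCP t c χ) (_ : S_LOSSL t c χ m r₀)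
  (_ : S_PCNT χ), S_AVXL t c χ m r₀

/-- the statement of the theorem of task LC4 (second part) -/
def S_MAINLall : Prop := ∀ {t c : ℤ} {f : ℕ} {χ : PS f} (_ : Fd t c f χ) {m : ℕ} {r₀ : ℤ}
  (_ : Iv t c m r₀) (_ : S_AVXL t c χ m r₀) (_ : S_REGL t c m r₀) (_ : S_DCV χ) (_ : S_PCNT χ),
  S_MAINL t c χ m r₀

theorem mc (h5 : S_LC5) (havx : S_AVXLall) (hmain : S_MAINLall) :
    ∀ t c : ℤ, (t = 0 ∨ t = 1) → t ^ 2 < 4 * c → S_MC t c := by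
  classical
  intro t c ht hD
  obtain ⟨M, hM, h1⟩ := h5 t c hD
  refine ⟨M, hM, fun m r₀ hI hmM N F₁ F₂ hF₁ hF₂ q hq R R' hR s₁ s₂ s₃ s₄ g1 g2' g3 g4 g5 g6
    ε hε => ?_⟩
  obtain ⟨ρ, hρ, hd⟩ := h1 m r₀ hI hmM
  obtain ⟨f, hf⟩ : ∃ f : ℕ, (f : ℤ) = 4 * c - t ^ 2 := ⟨(4 * c - t ^ 2).toNat, by
    rw [Int.toNat_of_nonneg (by linarith)]⟩
  obtain ⟨χ, hχ⟩ : ∃ χ : PS f, χ = fun p => ∃ δ : Qd t c, nm δ = m * p ∧ lat m r₀ (star δ) :=
    ⟨_, rfl⟩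
  have hF : Fd t c f χ := by
    refine ⟨ht, by linarith, ?_, ρ, hρ, ?_⟩
    · rcases ht with rfl | rfl
      · omega
      · omega
    · rw [hχ]
      exact hd
  have he : ∀ p : ℕ, p.Prime → χ p → ∃ δ : Qd t c, nm δ = m * p ∧ lat m r₀ (star δ) := by
    intro p _ hp
    rw [hχ] at hp
    exact hp
  have h2 : S_AVXL t c χ m r₀ := havx hF hI he (zxG hF)
    (Pool.Agent.N426.LC.perl hF hI (Pool.Agent.N426.LC.bijl hF hI)) (dcpG hF)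
    (Pool.Agent.N80.LC.lossl hF hI) (pcntG hF)
  have h3 : S_MAINL t c χ m r₀ := hmain hF hI h2 (Pool.Agent.N196.LC.regl hD hI) (dcvG hF)
    (pcntG hF)
  exact h3 N F₁ F₂ hF₁ hF₂.cm q hq (fun β => btclG hF N F₂ hF₂ q β hq) R R' hR s₁ s₂ s₃ s₄
    g1 g2' g3 g4 g5 g6 ε hε

end Pool.Agent.N912.LC
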