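import Pool.Agent.N912.LC.All
import Pool.Agent.N490.LC.Finmg
import Pool.Agent.N222.RC.Rc4
import Pool.Agent.N87.RC.RC5
import Pool.Agent.N603.RC.RC3
import Pool.Agent.N864.RC.Mean
import Pool.Agent.N717.LC.Fino

/-!
# Project LC (helper912): the results for the hand-in
-/

set_option autoImplicit false

namespace Pool.Agent.N912.LC

open Finset Filter
open Pool.Agent.W78.GA (Qd nm ball mem_ball nm_cast nm_mul)
open Pool.Agent.W251.GX (Cm)
open Pool.Agent.N912.EP.W78EG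
open Pool.Agent.N717.LC (gn_bO TQ_finite)

variable {t c : ℤ}

/-- `b^Ω` is aperiodic -/
theorem pntxAll : ∀ t c : ℤ, t ^ 2 < 4 * c → Pool.Agent.N912.ED.W78EG.S_PNTX t c :=
  fun t c hD => Pool.Agent.N87.RC.rc5 Pool.Agent.N615.RC.rc0
    (Pool.Agent.N222.RC.rc4 (Pool.Agent.N864.RC.rc2 Pool.Agent.N864.RC.rc1)
      Pool.Agent.N603.RC.rc3) t c hD

theorem finmgAll : S_FINMG := Pool.Agent.N490.LC.finmg fingAll lc10All

theorem nm_ne0 (hD : t ^ 2 < 4 * c) {z : Qd t c} (hz : z ≠ 0) : nm z ≠ 0 := by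
  intro h
  have h1 := nm_cast hD z
  rw [h] at h1
  apply hz
  have h2 : (2 * z.re + t * z.im) ^ 2 + (4 * c - t ^ 2) * z.im ^ 2 = 0 := by
    push_cast at h1
    linear_combination (-4 : ℤ) * h1
  have h3 : z.im = 0 := by
    by_contra h4
    have : 0 < z.im ^ 2 := by positivity
    nlinarith [sq_nonneg (2 * z.re + t * z.im)]
  have h4 : z.re = 0 := by
    rw [h3] at h2
    nlinarith
  exact QuadraticAlgebra.ext h4 h3

theorem cm_gn (hD : t ^ 2 < 4 * c) {N : ℕ} {g : ℕ → ℂ} (hg : CMN N g) :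
    Cm N (gn g : Qd t c → ℂ) where
  pos := hg.pos
  mul := by
    intro z w hz hw
    have h1 := nm_ne0 hD hz
    have h2 := nm_ne0 hD hw
    have h3 : nm (z * w) ≠ 0 := by
      rw [nm_mul]
      exact Nat.mul_ne_zero h1 h2
    unfold gn
    rw [if_neg h1, if_neg h2, if_neg h3, nm_mul, hg.mul _ _ h1 h2]
  pow := by
    intro z
    unfold gn
    split_ifs with h
    · rw [one_pow]
    · exact hg.pow _ h

/-- aperiodicity from mean values over pairs of integers -/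
theorem apd_of' (ht : t = 0 ∨ t = 1) (hD : t ^ 2 < 4 * c) {N : ℕ} {g : ℕ → ℂ} (hg : CMN N g)
    (hap : ∀ (M : ℕ) (u v : ℤ), 1 ≤ M → Tendsto (fun X : ℕ =>
      (∑ z ∈ (Icc (-(2 * (X : ℤ))) (2 * X) ×ˢ Icc (-(2 * (X : ℤ))) (2 * X)).filter
        (fun z : ℤ × ℤ => z.1 ≡ u [ZMOD M] ∧ z.2 ≡ v [ZMOD M] ∧
          1 ≤ z.1 ^ 2 + t * z.1 * z.2 + c * z.2 ^ 2 ∧ z.1 ^ 2 + t * z.1 * z.2 + c * z.2 ^ 2 ≤ X),
        g (z.1 ^ 2 + t * z.1 * z.2 + c * z.2 ^ 2).toNat) / (X : ℂ)) atTop (nhds 0)) :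
    Apd N (gn g : Qd t c → ℂ) where
  cm := cm_gn hD hg
  mean := by
    classical
    have hc' : (1 : ℤ) ≤ c := by nlinarith [sq_nonneg t]
    intro M r₁ r₂ hM ε hε
    obtain ⟨X₁, hX₁⟩ := Metric.tendsto_atTop.1 (hap M r₁ r₂ hM) ε hε
    refine ⟨(X₁ : ℝ) + 1, fun X hX => ?_⟩
    have hX0 : (0 : ℝ) ≤ X := by
      have : (0 : ℝ) ≤ X₁ := Nat.cast_nonneg _
      linarith
    obtain ⟨Y, hY⟩ : ∃ Y : ℕ, Y = ⌊X⌋₊ := ⟨_, rfl⟩
    have hY1 : X₁ ≤ Y := by
      rw [hY]
      exact Nat.le_floor (by linarith)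
    have hYX : (Y : ℝ) ≤ X := by rw [hY]; exact Nat.floor_le hX0
    have hYpos : 1 ≤ Y := by
      rw [hY]
      exact Nat.le_floor (by
        have : (0 : ℝ) ≤ X₁ := Nat.cast_nonneg _
        push_cast
        linarith)
    have hYz : (1 : ℤ) ≤ Y := by exact_mod_cast hYpos
    have h1 := hX₁ Y hY1
    rw [dist_zero_right, norm_div, Complex.norm_natCast,
      div_lt_iff₀ (by exact_mod_cast hYpos)] at h1
    have h2 : ∑ z ∈ (ball t c X).filter
        (fun z => (M : ℤ) ∣ z.re - r₁ ∧ (M : ℤ) ∣ z.im - r₂),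
        gn g z = ∑ z ∈ (Icc (-(2 * (Y : ℤ))) (2 * Y) ×ˢ Icc (-(2 * (Y : ℤ))) (2 * Y)).filter
        (fun z : ℤ × ℤ => z.1 ≡ r₁ [ZMOD M] ∧ z.2 ≡ r₂ [ZMOD M] ∧
          1 ≤ z.1 ^ 2 + t * z.1 * z.2 + c * z.2 ^ 2 ∧ z.1 ^ 2 + t * z.1 * z.2 + c * z.2 ^ 2 ≤ Y),
        g (z.1 ^ 2 + t * z.1 * z.2 + c * z.2 ^ 2).toNat := by
      refine sum_nbij' (fun z : Qd t c => (z.re, z.im))
        (fun p => (⟨p.1, p.2⟩ : Qd t c)) ?_ ?_ ?_ ?_ ?_
      · intro z hz
        rw [mem_filter, mem_ball hD] at hz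
        obtain ⟨⟨h3, h4⟩, h5, h6⟩ := hz
        have h7 := nm_cast hD z
        have h8 : nm z ≤ Y := by rw [hY]; exact Nat.le_floor h4
        have h9 : z.re ^ 2 + t * z.re * z.im + c * z.im ^ 2 ≤ Y := by
          rw [← h7]; exact_mod_cast h8
        have h10 : 1 ≤ z.re ^ 2 + t * z.re * z.im + c * z.im ^ 2 := by
          rw [← h7]; exact_mod_cast h3
        obtain ⟨x, y, hx, hy⟩ : ∃ x y : ℤ, x = z.re ∧ y = z.im := ⟨_, _, rfl, rfl⟩
        rw [← hx, ← hy] at h9 h10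
        have h11 : x ^ 2 + t * x * y + c * y ^ 2 ≥ x ^ 2 + t * x * y + y ^ 2 := by
          nlinarith [sq_nonneg y]
        have h12 : 3 * x ^ 2 ≤ 4 * Y ∧ 3 * y ^ 2 ≤ 4 * Y := by
          rcases ht with h | h
          · rw [h] at h9 h11
            constructor <;> nlinarith [sq_nonneg x, sq_nonneg y]
          · rw [h] at h9 h11
            constructor
            · nlinarith [sq_nonneg (x + 2 * y)]
            · nlinarith [sq_nonneg (2 * x + y)]
        have hb : ∀ w : ℤ, 3 * w ^ 2 ≤ 4 * Y → -(2 * (Y : ℤ)) ≤ w ∧ w ≤ 2 * Y := by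
          intro w hw
          constructor
          · by_contra hcon
            push Not at hcon
            nlinarith
          · by_contra hcon
            push Not at hcon
            nlinarith
        simp only [mem_filter, mem_product, mem_Icc, ← hx, ← hy]
        refine ⟨⟨hb x h12.1, hb y h12.2⟩, ?_, ?_, h10, h9⟩
        · rw [hx]; exact (Int.modEq_iff_dvd.2 h5).symm
        · rw [hy]; exact (Int.modEq_iff_dvd.2 h6).symm
      · intro p hp
        simp only [mem_filter, mem_product, mem_Icc] at hp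
        obtain ⟨_, h3, h4, h5, h6⟩ := hp
        have h7 : (nm (⟨p.1, p.2⟩ : Qd t c) : ℤ) =
            p.1 ^ 2 + t * p.1 * p.2 + c * p.2 ^ 2 := nm_cast hD _
        rw [mem_filter, mem_ball hD]
        refine ⟨⟨?_, ?_⟩, ?_, ?_⟩
        · have : (1 : ℤ) ≤ nm (⟨p.1, p.2⟩ : Qd t c) := by rw [h7]; exact h5
          exact_mod_cast this
        · have : (nm (⟨p.1, p.2⟩ : Qd t c) : ℤ) ≤ Y := by rw [h7]; exact h6
          have h8 : nm (⟨p.1, p.2⟩ : Qd t c) ≤ Y := by exact_mod_cast this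
          exact le_trans (by exact_mod_cast h8) hYX
        · exact Int.modEq_iff_dvd.1 h3.symm
        · exact Int.modEq_iff_dvd.1 h4.symm
      · intro z _
        rfl
      · intro p _
        rfl
      · intro z hz
        rw [mem_filter, mem_ball hD] at hz
        have h3 : nm z ≠ 0 := by omega
        unfold gn
        rw [if_neg h3, ← nm_cast hD z, Int.toNat_natCast]
    rw [h2]
    exact h1.le.trans (mul_le_mul_of_nonneg_left hYX hε.le)

/-! ### The number of prime factors -/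

/-- the hypothesis for `(Ω(d), Ω(e))` modulo `k` -/
theorem hypO (hD : t ^ 2 < 4 * c) {k : ℕ} [NeZero k] :
    Hyp t c (fun n : ℕ => ((ArithmeticFunction.cardFactors n : ZMod k), (0 : ZMod k)))
      (fun n : ℕ => ((0 : ZMod k), (ArithmeticFunction.cardFactors n : ZMod k))) where
  add₁ := fun m n hm hn => by
    beta_reduce
    rw [ArithmeticFunction.cardFactors_mul hm hn]
    push_cast
    rw [Prod.mk_add_mk, add_zero]
  add₂ := fun m n hm hn => by
    beta_reduce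
    rw [ArithmeticFunction.cardFactors_mul hm hn]
    push_cast
    rw [Prod.mk_add_mk, add_zero]
  apd := by
    intro ψ hψ
    obtain ⟨b₁, hb₁⟩ : ∃ b₁ : ℂ, b₁ = ψ (1, 0) := ⟨_, rfl⟩
    obtain ⟨b₂, hb₂⟩ : ∃ b₂ : ℂ, b₂ = ψ (0, 1) := ⟨_, rfl⟩
    have e1 : ∀ m : ℕ, ψ ((m : ZMod k), (0 : ZMod k)) = b₁ ^ m := by
      intro m
      rw [hb₁, ← AddChar.map_nsmul_eq_pow]
      congr 1
      rw [Prod.smul_mk, nsmul_one, smul_zero]
    have e2 : ∀ m : ℕ, ψ ((0 : ZMod k), (m : ZMod k)) = b₂ ^ m := by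
      intro m
      rw [hb₂, ← AddChar.map_nsmul_eq_pow]
      congr 1
      rw [Prod.smul_mk, nsmul_one, smul_zero]
    have hne : b₁ ≠ 1 ∨ b₂ ≠ 1 := by
      by_contra hno
      push Not at hno
      apply hψ
      ext ⟨x, y⟩
      have hx : x = ((x.val : ℕ) : ZMod k) := (ZMod.natCast_zmod_val x).symm
      have hy : y = ((y.val : ℕ) : ZMod k) := (ZMod.natCast_zmod_val y).symm
      have h3 : ((x, y) : ZMod k × ZMod k) = (((x.val : ℕ) : ZMod k), 0) +
          (0, ((y.val : ℕ) : ZMod k)) := by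
        rw [Prod.mk_add_mk, add_zero, zero_add, ← hx, ← hy]
      rw [h3, AddChar.map_add_eq_mul, e1, e2, hno.1, hno.2, one_pow, one_pow, one_mul,
        AddChar.one_apply]
    have hN : 1 ≤ Nat.card (ZMod k × ZMod k) := Nat.card_pos
    refine hne.imp (fun h1 => ?_) (fun h1 => ?_)
    · have h2 : (fun n : ℕ => ψ ((ArithmeticFunction.cardFactors n : ZMod k), (0 : ZMod k))) =
          fun n => b₁ ^ ArithmeticFunction.cardFactors n := by
        funext n
        exact e1 _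
      rw [h2, gn_bO]
      refine pntxAll t c hD _ b₁ hN ?_ h1
      rw [hb₁]
      exact Pool.Agent.V11296.CV.chpow ψ _
    · have h2 : (fun n : ℕ => ψ ((0 : ZMod k), (ArithmeticFunction.cardFactors n : ZMod k))) =
          fun n => b₂ ^ ArithmeticFunction.cardFactors n := by
        funext n
        exact e2 _
      rw [h2, gn_bO]
      refine pntxAll t c hD _ b₂ hN ?_ h1
      rw [hb₂]
      exact Pool.Agent.V11296.CV.chpow ψ _

end Pool.Agent.N912.LC
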