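import Pool.Agent.N912.LC.Stm

/-!
# Project LC (helper912), second part: from the ideal classes to the factorisations of the values of the
quadratic polynomials of negative discriminant. Statements of the parts.
-/

set_option autoImplicit false

namespace Pool.Agent.N912.LC

open Finset Filter
open Pool.Agent.W78.GA (Qd nm prim dt ip lat ball pball edge dedge ang)
open Pool.Agent.W251.GX (Cm)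
open Pool.Agent.N912.EP.W78EG

variable {t c : ℤ}

/-- the two-factor theorem in the classes of the order `ℤ[ω]` -/
def S_MC (t c : ℤ) : Prop := ∃ M : ℕ, 1 ≤ M ∧ ∀ (m : ℕ) (r₀ : ℤ), Iv t c m r₀ → Nat.Coprime m M →
  ∀ (N : ℕ) (F₁ F₂ : Qd t c → ℂ), Cm N F₁ → Apd N F₂ → ∀ q : ℕ, 1 ≤ q →
  ∀ R R' : Qd t c → Qd t c → Prop, RelL q m r₀ R R' → ∀ (s₁ s₂ s₃ s₄ : ℝ), 0 < s₁ → s₁ < s₂ →
  s₂ ≤ 1 → 0 < s₃ → s₃ < s₄ → s₄ ≤ 1 → ∀ ε : ℝ, 0 < ε → ∃ N₀ : ℕ, ∀ N' : ℕ, N₀ ≤ N' →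
    ∑ X ∈ Icc 1 N', 1 / (X : ℝ) ^ 2 * ‖AGL m r₀ (g2 F₁ F₂ R) s₁ s₂ s₃ s₄ X‖ ≤ ε * Real.log N'

/-- completely multiplicative functions with values in the `N`-th roots of unity -/
structure CMN (N : ℕ) (g : ℕ → ℂ) : Prop where
  pos : 1 ≤ N
  mul : ∀ m n : ℕ, m ≠ 0 → n ≠ 0 → g (m * n) = g m * g n
  pow : ∀ n : ℕ, n ≠ 0 → g n ^ N = 1

open scoped Classical in
/-- the function `z ↦ g(N z)` -/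
noncomputable def gn (g : ℕ → ℂ) (z : Qd t c) : ℂ := if nm z = 0 then 1 else g (nm z)

open scoped Classical in
/-- the triples `(d, e, n)` with `d e = n^2 + t n + c` in given windows -/
noncomputable def TW (t c : ℤ) (s₁ s₂ s₃ s₄ X : ℝ) : Finset (ℕ × ℕ × ℕ) :=
  (TP t c X).filter (fun y => s₁ * X < (y.1 : ℝ) ∧ (y.1 : ℝ) ≤ s₂ * X ∧ s₃ * X < (y.2.1 : ℝ) ∧
    (y.2.1 : ℝ) ≤ s₄ * X)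

/-- CORE1: monic polynomials, windows bounded away from `0`. `w` is a function of the residues -/
def S_CORE1 : Prop := ∀ t c : ℤ, (t = 0 ∨ t = 1) → t ^ 2 < 4 * c → ∀ (N : ℕ) (g h : ℕ → ℂ),
  CMN N g → CMN N h → Apd N (gn h : Qd t c → ℂ) → ∀ q : ℕ, 1 ≤ q →
  ∀ w : ZMod q → ZMod q → ZMod q → ℂ, ∀ (s₁ s₂ s₃ s₄ : ℝ), 0 < s₁ → s₁ < s₂ → s₂ ≤ 1 → 0 < s₃ →
  s₃ < s₄ → s₄ ≤ 1 → ∀ ε : ℝ, 0 < ε → ∃ N₀ : ℕ, ∀ N' : ℕ, N₀ ≤ N' →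
    ∑ X ∈ Icc 1 N', 1 / (X : ℝ) ^ 2 * ‖∑ y ∈ TW t c s₁ s₂ s₃ s₄ X,
      w y.2.2 y.1 y.2.1 * (g y.1 * h y.2.1)‖ ≤ ε * Real.log N'

/-- the triples `(d, e, n)` of natural numbers with `d e = A n^2 + B n + C`, `s₁ X < d ≤ s₂ X`,
`s₃ X < e ≤ s₄ X` -/
def TQ (A B C : ℤ) (s₁ s₂ s₃ s₄ X : ℝ) : Set (ℕ × ℕ × ℕ) :=
  {y | (y.1 : ℤ) * y.2.1 = A * (y.2.2 : ℤ) ^ 2 + B * y.2.2 + C ∧
    s₁ * X < (y.1 : ℝ) ∧ (y.1 : ℝ) ≤ s₂ * X ∧ s₃ * X < (y.2.1 : ℝ) ∧ (y.2.1 : ℝ) ≤ s₄ * X}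

/-- CORE2: all quadratic polynomials of negative discriminant, all windows -/
def S_CORE2 : Prop := ∀ A B C t c : ℤ, 0 < A → (t = 0 ∨ t = 1) → t ^ 2 < 4 * c →
  B ^ 2 - 4 * A * C = t ^ 2 - 4 * c → ∀ (N : ℕ) (g h : ℕ → ℂ),
  CMN N g → CMN N h → (Apd N (gn g : Qd t c → ℂ) ∨ Apd N (gn h : Qd t c → ℂ)) → ∀ q : ℕ, 1 ≤ q →
  ∀ w : ZMod q → ZMod q → ZMod q → ℂ, ∀ (s₁ s₂ s₃ s₄ : ℝ), 0 ≤ s₁ → s₁ < s₂ → 0 ≤ s₃ →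
  s₃ < s₄ → ∀ ε : ℝ, 0 < ε → ∃ N₀ : ℕ, ∀ N' : ℕ, N₀ ≤ N' →
    ∑ X ∈ Icc 1 N', 1 / (X : ℝ) ^ 2 * ‖∑ᶠ y ∈ TQ A B C s₁ s₂ s₃ s₄ X,
      w y.2.2 y.1 y.2.1 * (g y.1 * h y.2.1)‖ ≤ ε * Real.log N'

/-- the triples with `n ≡ u`, `d ≡ r`, `e ≡ r'` modulo `q`, `Ω(d) ≡ i`, `Ω(e) ≡ j` modulo `k` -/
def TO (A B C : ℤ) (q u r r' k i j : ℕ) (s₁ s₂ s₃ s₄ X : ℝ) : Set (ℕ × ℕ × ℕ) :=
  {y ∈ TQ A B C s₁ s₂ s₃ s₄ X | y.2.2 ≡ u [MOD q] ∧ y.1 ≡ r [MOD q] ∧ y.2.1 ≡ r' [MOD q] ∧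
    ArithmeticFunction.cardFactors y.1 ≡ i [MOD k] ∧ ArithmeticFunction.cardFactors y.2.1 ≡ j [MOD k]}

/-- FINO: joint equidistribution of `Ω(d)`, `Ω(e)` modulo `k` at almost all scales -/
def S_FINO : Prop := ∀ A B C : ℤ, 0 < A → B ^ 2 < 4 * A * C → ∀ q u r r' k i j : ℕ, 1 ≤ q → 1 ≤ k →
  ∀ (s₁ s₂ s₃ s₄ : ℝ), 0 ≤ s₁ → s₁ < s₂ → 0 ≤ s₃ → s₃ < s₄ →
  ∀ ε : ℝ, 0 < ε → ∃ N₀ : ℕ, ∀ N' : ℕ, N₀ ≤ N' → ∑ X ∈ Icc 1 N', 1 / (X : ℝ) ^ 2 *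
    |(Set.ncard (TO A B C q u r r' k i j s₁ s₂ s₃ s₄ X) : ℝ) -
      1 / (k : ℝ) ^ 2 * (Set.ncard (TO A B C q u r r' 1 0 0 s₁ s₂ s₃ s₄ X) : ℝ)| ≤ ε * Real.log N'

/-- FINZ: for every `δ > 0` and all large `N`, there are at least `N^(1-δ)` integers `n ≤ N` for which
`A n^2 + B n + C` has a factorisation into two factors with given numbers of prime factors modulo `k`,
both at most `n L` -/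
def S_FINZ : Prop := ∀ B C : ℤ, B ^ 2 < 4 * C → ∀ q u k i j : ℕ, 1 ≤ q → 1 ≤ k → ∀ δ : ℝ, 0 < δ →
  ∃ N₀ : ℕ, ∀ N : ℕ, N₀ ≤ N → (N : ℝ) ^ (1 - δ) ≤
    (Set.ncard {n : ℕ | n ≤ N ∧ n ≡ u [MOD q] ∧ ∃ d e : ℕ, (d : ℤ) * e = (n : ℤ) ^ 2 + B * n + C ∧
      ArithmeticFunction.cardFactors d ≡ i [MOD k] ∧ ArithmeticFunction.cardFactors e ≡ j [MOD k]} : ℝ)

end Pool.Agent.N912.LC
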