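import Pool.Agent.N912.LC.Stm2

/-!
# Project LC (helper912), third part: the number of integers `n`, for all quadratic polynomials
-/

set_option autoImplicit false

namespace Pool.Agent.N912.LC

open Finset Filter

/-- LC10: lower bound for the number of triples in a residue class, all polynomials -/
def S_LC10 : Prop := ∀ A B C : ℤ, 0 < A → B ^ 2 < 4 * A * C → ∀ q u : ℕ, 1 ≤ q →
  ∃ c₁ : ℝ, 0 < c₁ ∧ ∃ X₀ : ℕ, ∀ X : ℕ, X₀ ≤ X →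
    c₁ * X ≤ (Set.ncard {y ∈ TQ A B C 0 1 0 1 X | y.2.2 ≡ u [MOD q]} : ℝ)

/-- the number of the `n ≤ X`, `n ≡ u mod q`, for which `A n^2 + B n + C = d e` with `d, e ≤ X`,
`Ω(d) ≡ i`, `Ω(e) ≡ j mod k` -/
noncomputable def cO (A B C : ℤ) (q u k i j X : ℕ) : ℕ :=
  Set.ncard {n : ℕ | n ≤ X ∧ n ≡ u [MOD q] ∧ ∃ d e : ℕ, d ≤ X ∧ e ≤ X ∧
    (d : ℤ) * e = A * (n : ℤ) ^ 2 + B * n + C ∧ ArithmeticFunction.cardFactors d ≡ i [MOD k] ∧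
    ArithmeticFunction.cardFactors e ≡ j [MOD k]}

open scoped Classical in
/-- FINM: for almost all `X` (logarithmic density) at least `X / (log X)^(log 2 + ε)`, and for all
large `X` at least `X^(1-δ)` -/
def S_FINM : Prop := ∀ A B C : ℤ, 0 < A → B ^ 2 < 4 * A * C → ∀ q u k i j : ℕ, 1 ≤ q → 1 ≤ k →
  (∀ ε : ℝ, 0 < ε → Tendsto (fun Z : ℕ => (∑ X ∈ (Icc 1 Z).filter (fun X : ℕ =>
    (cO A B C q u k i j X : ℝ) < (X : ℝ) / Real.log X ^ (Real.log 2 + ε)), 1 / (X : ℝ)) /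
      Real.log Z) atTop (nhds 0)) ∧
  ∀ δ : ℝ, 0 < δ → ∃ N₀ : ℕ, ∀ N : ℕ, N₀ ≤ N → (N : ℝ) ^ (1 - δ) ≤ (cO A B C q u k i j N : ℝ)

end Pool.Agent.N912.LC
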