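import Pool.Agent.N912.LC.Stm3

/-!
# Project LC (helper912), fourth part: functions with values in a finite abelian group
-/

set_option autoImplicit false

namespace Pool.Agent.N912.LC

open Finset Filter
open Pool.Agent.W78.GA (Qd)
open Pool.Agent.N912.EP.W78EG

/-- completely additive functions of the positive integers -/
def AddN {G : Type} [AddCommGroup G] (H : ℕ → G) : Prop :=
  ∀ m n : ℕ, m ≠ 0 → n ≠ 0 → H (m * n) = H m + H n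

/-- the triples with `n ≡ u`, `d ≡ r`, `e ≡ r'` modulo `q` -/
def TR (A B C : ℤ) (q u r r' : ℕ) (s₁ s₂ s₃ s₄ X : ℝ) : Set (ℕ × ℕ × ℕ) :=
  {y ∈ TQ A B C s₁ s₂ s₃ s₄ X | y.2.2 ≡ u [MOD q] ∧ y.1 ≡ r [MOD q] ∧ y.2.1 ≡ r' [MOD q]}

/-- the hypothesis on the two functions -/
structure Hyp (t c : ℤ) {G : Type} [AddCommGroup G] (H₁ H₂ : ℕ → G) : Prop where
  add₁ : AddN H₁
  add₂ : AddN H₂
  apd : ∀ ψ : AddChar G ℂ, ψ ≠ 1 → Apd (Nat.card G) (gn (fun n => ψ (H₁ n)) : Qd t c → ℂ) ∨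
    Apd (Nat.card G) (gn (fun n => ψ (H₂ n)) : Qd t c → ℂ)

/-- FING: equidistribution in a finite abelian group -/
def S_FING : Prop := ∀ A B C t c : ℤ, 0 < A → (t = 0 ∨ t = 1) → t ^ 2 < 4 * c →
  B ^ 2 - 4 * A * C = t ^ 2 - 4 * c → ∀ (G : Type) [AddCommGroup G] [Finite G] (H₁ H₂ : ℕ → G),
  Hyp t c H₁ H₂ → ∀ (q u r r' : ℕ) (g : G), 1 ≤ q → ∀ (s₁ s₂ s₃ s₄ : ℝ), 0 ≤ s₁ → s₁ < s₂ →
  0 ≤ s₃ → s₃ < s₄ → ∀ ε : ℝ, 0 < ε → ∃ N₀ : ℕ, ∀ N' : ℕ, N₀ ≤ N' →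
    ∑ X ∈ Icc 1 N', 1 / (X : ℝ) ^ 2 *
      |(Set.ncard {y ∈ TR A B C q u r r' s₁ s₂ s₃ s₄ X | H₁ y.1 + H₂ y.2.1 = g} : ℝ) -
        (Set.ncard (TR A B C q u r r' s₁ s₂ s₃ s₄ X) : ℝ) / Nat.card G| ≤ ε * Real.log N'

/-- the number of the `n ≤ X`, `n ≡ u mod q`, for which `A n^2 + B n + C = d e` with `d, e ≤ X`,
`H₁(d) + H₂(e) = g` -/
noncomputable def cG {G : Type} [AddCommGroup G] (A B C : ℤ) (q u : ℕ) (H₁ H₂ : ℕ → G) (g : G)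
    (X : ℕ) : ℕ :=
  Set.ncard {n : ℕ | n ≤ X ∧ n ≡ u [MOD q] ∧ ∃ d e : ℕ, d ≤ X ∧ e ≤ X ∧
    (d : ℤ) * e = A * (n : ℤ) ^ 2 + B * n + C ∧ H₁ d + H₂ e = g}

open scoped Classical in
/-- FINMG: for almost all `X` (logarithmic density) at least `X / (log X)^(log 2 + ε)`, and for all
large `X` at least `X^(1-δ)` -/
def S_FINMG : Prop := ∀ A B C t c : ℤ, 0 < A → (t = 0 ∨ t = 1) → t ^ 2 < 4 * c →
  B ^ 2 - 4 * A * C = t ^ 2 - 4 * c → ∀ (G : Type) [AddCommGroup G] [Finite G] (H₁ H₂ : ℕ → G),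
  Hyp t c H₁ H₂ → ∀ (q u : ℕ) (g : G), 1 ≤ q →
  (∀ ε : ℝ, 0 < ε → Tendsto (fun Z : ℕ => (∑ X ∈ (Icc 1 Z).filter (fun X : ℕ =>
    (cG A B C q u H₁ H₂ g X : ℝ) < (X : ℝ) / Real.log X ^ (Real.log 2 + ε)), 1 / (X : ℝ)) /
      Real.log Z) atTop (nhds 0)) ∧
  ∀ δ : ℝ, 0 < δ → ∃ N₀ : ℕ, ∀ N : ℕ, N₀ ≤ N → (N : ℝ) ^ (1 - δ) ≤ (cG A B C q u H₁ H₂ g N : ℝ)

end Pool.Agent.N912.LC
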